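import Pool.Agent.Helper84.SPN.St

/-!
Project SPN (helper84), module ORD: the order of the symplectic group.
-/

set_option autoImplicit false

namespace Pool.Agent.Helper36.SPN

open Pool.Agent.Helper84.SPN Pool.Agent.Helper75.MX

variable {m : ℕ} {F : Type} [Field F]

theorem om_e0 (w : VV (m + 1) F) : om (e0 m F) w = w.2 0 := by
  unfold om e0
  simp [Pi.single_apply]

theorem om_f0 (w : VV (m + 1) F) : om (f0 m F) w = -(w.1 0) := by
  unfold om f0
  simp [Pi.single_apply]

theorem om_f0' (w : VV (m + 1) F) : om w (f0 m F) = w.1 0 := by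
  unfold om f0
  simp [Pi.single_apply]

/-- the action of the symplectic group on the vectors -/
@[reducible] def smG (m : ℕ) (F : Type) [Field F] :
    SMul (SpG (m + 1) F) (VV (m + 1) F) := ⟨fun g v => g.1 v⟩

@[reducible] def actG (m : ℕ) (F : Type) [Field F] :
    MulAction (SpG (m + 1) F) (VV (m + 1) F) where
  toSMul := smG m F
  one_smul _ := rfl
  mul_smul _ _ _ := rfl

/-- the action of the stabiliser of `e₀` on the vectors -/
@[reducible] def smE (m : ℕ) (F : Type) [Field F] :
    SMul (Ge m F) (VV (m + 1) F) := ⟨fun g v => g.1.1 v⟩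

@[reducible] def actE (m : ℕ) (F : Type) [Field F] :
    MulAction (Ge m F) (VV (m + 1) F) where
  toSMul := smE m F
  one_smul _ := rfl
  mul_smul _ _ _ := rfl

attribute [local instance 2000] actG actE

attribute [local instance 3000] smG smE

/-- the orbit of `f₀` under the stabiliser of `e₀` -/
theorem orbit_f0 (hRRR : StRRR) :
    MulAction.orbit (Ge m F) (f0 m F) = {w : VV (m + 1) F | w.2 0 = 1} := by
  ext w
  rw [MulAction.mem_orbit_iff]
  constructor
  · rintro ⟨g, rfl⟩
    show ((g.1.1 (f0 m F)) : VV (m + 1) F).2 0 = 1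
    rw [← om_e0]
    have h1 : g.1.1 (e0 m F) = e0 m F := g.2
    have h2 := g.1.2 (e0 m F) (f0 m F)
    rw [h1] at h2
    rw [h2, om_e0]
    simp [f0]
  · intro hw
    have hw' : w.2 0 = 1 := hw
    obtain ⟨r, hr⟩ := hRRR m F
    set c : F := w.1 0 with hc
    set u : VV (m + 1) F := w - f0 m F - c • e0 m F with hu
    have hu1 : om (e0 m F) u = 0 := by
      rw [om_e0, hu]
      simp [f0, e0, hw']
    have hu2 : om (f0 m F) u = 0 := by
      rw [om_f0, hu]
      simp [f0, e0, hc]
    obtain ⟨h1, h2, _⟩ := hr u c hu1 hu2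
    have h3 : r u c ∈ Ge m F := h1.1
    refine ⟨⟨r u c, h3⟩, ?_⟩
    show (r u c).1 (f0 m F) = w
    rw [h2, om_e0]
    have h4 : om u (f0 m F) = 0 := by
      rw [om_f0']
      rw [om_f0] at hu2
      exact neg_eq_zero.1 hu2
    have h5 : (f0 m F).2 0 = 1 := by simp [f0]
    rw [h4, h5, one_smul, zero_smul, add_zero, hu]
    abel

theorem orbit_e0 [Finite F] (hEMB : StEMB) :
    MulAction.orbit (SpG (m + 1) F) (e0 m F) = {0}ᶜ := by
  have h0 : e0 m F ≠ 0 := by
    intro h
    have h1 : (e0 m F).1 0 = 0 := by rw [h]; rfl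
    simp [e0] at h1
  ext w
  rw [MulAction.mem_orbit_iff]
  constructor
  · rintro ⟨g, rfl⟩
    show ¬ (g.1 (e0 m F) = 0)
    rw [LinearEquiv.map_eq_zero_iff]
    exact h0
  · intro hw
    have hw' : w ≠ 0 := hw
    obtain ⟨K, _, _, _, φ, hφ⟩ := hEMB (m + 1) F (Nat.succ_le_succ (Nat.zero_le m))
    obtain ⟨x, hx⟩ := hφ (e0 m F) w h0 hw'
    exact ⟨φ x, hx⟩

theorem hORD (hEMB : StEMB) (hRRR : StRRR) (hLFI : StLFI) : StORD := by
  intro m F _ _
  have hF : Nat.card (Fin (m + 1) → F) = Nat.card F ^ (m + 1) := by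
    rw [Nat.card_fun, Nat.card_eq_fintype_card (α := Fin (m + 1)), Fintype.card_fin]
  have hFm : Nat.card (Fin m → F) = Nat.card F ^ m := by
    rw [Nat.card_fun, Nat.card_eq_fintype_card (α := Fin m), Fintype.card_fin]
  have hV : Nat.card (VV (m + 1) F) = Nat.card F ^ (2 * m + 2) := by
    rw [Nat.card_prod, hF, ← pow_add]
    congr 1
    omega
  -- first orbit
  have e1 := MulAction.index_stabilizer (SpG (m + 1) F) (e0 m F)
  rw [orbit_e0 hEMB] at e1
  have e2 : ({0}ᶜ : Set (VV (m + 1) F)).ncard = Nat.card F ^ (2 * m + 2) - 1 := by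
    have h1 := Set.ncard_add_ncard_compl ({0} : Set (VV (m + 1) F))
    rw [Set.ncard_singleton, hV] at h1
    omega
  have e3 : MulAction.stabilizer (SpG (m + 1) F) (e0 m F) = Ge m F := by
    ext g
    exact Iff.rfl
  rw [e3, e2] at e1
  -- second orbit
  have f1 := MulAction.index_stabilizer (Ge m F) (f0 m F)
  rw [orbit_f0 hRRR] at f1
  have f2 : ({w : VV (m + 1) F | w.2 0 = 1} : Set (VV (m + 1) F)).ncard
      = Nat.card F ^ (2 * m + 1) := by
    rw [← Nat.card_coe_set_eq]
    let E : {w : VV (m + 1) F // w ∈ {w : VV (m + 1) F | w.2 0 = 1}} ≃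
        (Fin (m + 1) → F) × (Fin m → F) :=
      { toFun := fun w => (w.1.1, Fin.tail w.1.2)
        invFun := fun x => ⟨(x.1, Fin.cons 1 x.2), by
          show (Fin.cons 1 x.2 : Fin (m + 1) → F) 0 = 1
          rfl⟩
        left_inv := by
          rintro ⟨⟨a, b⟩, h⟩
          have h' : b 0 = 1 := h
          apply Subtype.ext
          refine Prod.ext rfl ?_
          show (Fin.cons 1 (Fin.tail b) : Fin (m + 1) → F) = b
          rw [← h', Fin.cons_self_tail]
        right_inv := by
          rintro ⟨a, b⟩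
          rfl }
    rw [Nat.card_congr E, Nat.card_prod, hF, hFm, ← pow_add]
    congr 1
    omega
  rw [f2] at f1
  have f3 : Nat.card (MulAction.stabilizer (Ge m F) (f0 m F)) = Nat.card (SpG m F) := by
    obtain ⟨ψ⟩ := hLFI m F
    rw [← Nat.card_congr ψ.toEquiv]
    refine Nat.card_congr
      { toFun := fun g => ⟨g.1.1, g.1.2, g.2⟩
        invFun := fun g => ⟨⟨g.1, g.2.1⟩, g.2.2⟩
        left_inv := fun g => rfl
        right_inv := fun g => rfl }
  have g1 := Subgroup.index_mul_card (Ge m F)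
  have g2 := Subgroup.index_mul_card (MulAction.stabilizer (Ge m F) (f0 m F))
  rw [e1] at g1
  rw [f1, f3] at g2
  rw [← g1, ← g2]

end Pool.Agent.Helper36.SPN
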